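import Mathlib
import Pool.Agent.X154.RP.Def
import Pool.Agent.X154.RP.Def2
import Pool.Agent.X154.RP.F
import Pool.Agent.X154.RP.H3

/-!
For every `n ≥ 6` the Veronese immersion of real projective space `RP^n` (a minimal immersion into
the unit sphere of `ℝ^{(n+1)²}`) violates the inequality
`∑_{k=1}^n λ_{j+k} ≤ (n+3) λ_j + λ_j²/λ_{j+1} + n²` for some index `j`. The eigenvalue listing is
shown to exist, too.
-/

namespace Pool.Agent.Results.MP_84c1ad_gt.VeroneseGap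

open Pool.Agent.X154.RP

theorem result (n : ℕ) (hn : 6 ≤ n) :
    IsMinimalImmersion (n + 1) (Fin (n + 1) × Fin (n + 1))
      (2 * ((n + 1 : ℕ) : ℝ) / (((n + 1 : ℕ) : ℝ) - 1)) (veronese (n + 1)) ∧
    (∃ lam : ℕ → ℝ, IsListing (n + 1) (2 * ((n + 1 : ℕ) : ℝ) / (((n + 1 : ℕ) : ℝ) - 1)) lam) ∧
    ∀ lam : ℕ → ℝ, IsListing (n + 1) (2 * ((n + 1 : ℕ) : ℝ) / (((n + 1 : ℕ) : ℝ) - 1)) lam →
      ∃ j : ℕ, ((n : ℝ) + 3) * lam j + lam j ^ 2 / lam (j + 1) + (n : ℝ) ^ 2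
        < ∑ k ∈ Finset.Icc 1 n, lam (j + k) :=
  ⟨veronese_minimal (by omega),
    exists_listing (by omega) (by
      have h : (6 : ℝ) ≤ n := by exact_mod_cast hn
      push_cast
      exact div_pos (by linarith) (by linarith)),
    fun _ h => counterexample hn h⟩

end Pool.Agent.Results.MP_84c1ad_gt.VeroneseGap
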